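import Mathlib

/-!
# A square-sided dice pair for two 42-sided dice

For `(p, q, r) = (2, 3, 7)` and `t = (2, 2, 1, 1)`, a tuple of the set `S`, both `A_t` and
`B_{t̄}` have nonnegative coefficients: a 36-sided die and a 49-sided die whose sum is distributed like
the sum of two standard 42-sided dice.
-/

set_option autoImplicit false

open Polynomial

namespace Pool.Agent.Results.MP_eda2d2_co.Pair42

/-- The polynomial `M_t = φ_{pqr}^d φ_{pq}^a φ_{pr}^b φ_{qr}^c` of `t = (a, b, c, d)`. -/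
noncomputable def M (p q r : ℕ) (t : ℕ × ℕ × ℕ × ℕ) : ℤ[X] :=
  cyclotomic (p * q * r) ℤ ^ t.2.2.2 * cyclotomic (p * q) ℤ ^ t.1 *
    cyclotomic (p * r) ℤ ^ t.2.1 * cyclotomic (q * r) ℤ ^ t.2.2.1

/-- `A_t = x (φ_p φ_q)^2 M_t` -/
noncomputable def A (p q r : ℕ) (t : ℕ × ℕ × ℕ × ℕ) : ℤ[X] :=
  X * (cyclotomic p ℤ * cyclotomic q ℤ) ^ 2 * M p q r t

/-- `B_t = x φ_r^2 M_t` -/
noncomputable def B (p q r : ℕ) (t : ℕ × ℕ × ℕ × ℕ) : ℤ[X] :=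
  X * cyclotomic r ℤ ^ 2 * M p q r t

/-- `t̄ = (2 - a, 2 - b, 2 - c, 2 - d)` -/
def bar (t : ℕ × ℕ × ℕ × ℕ) : ℕ × ℕ × ℕ × ℕ := (2 - t.1, 2 - t.2.1, 2 - t.2.2.1, 2 - t.2.2.2)

/-- the ten tuples of `T` -/
def T : Set (ℕ × ℕ × ℕ × ℕ) :=
  {t | t = (2, 0, 0, 0) ∨ t = (2, 1, 0, 1) ∨ t = (2, 0, 1, 1) ∨ t = (2, 1, 1, 1) ∨
    ∃ b c : ℕ, b ≤ 2 ∧ c ≤ 2 ∧ 2 ≤ b + c ∧ t = (2, b, c, 2)}

/-- the set `S` of all `(a, b, c, d) ∈ {0,1,2}^4` with `2 + d ≤ a + b + c ≤ 4 + d` which are neither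
in `T` nor equal to `(1, 1, 1, 1)` -/
def S : Set (ℕ × ℕ × ℕ × ℕ) :=
  {t | (t.1 ≤ 2 ∧ t.2.1 ≤ 2 ∧ t.2.2.1 ≤ 2 ∧ t.2.2.2 ≤ 2) ∧
    (2 + t.2.2.2 ≤ t.1 + t.2.1 + t.2.2.1 ∧ t.1 + t.2.1 + t.2.2.1 ≤ 4 + t.2.2.2) ∧
    t ∉ T ∧ t ≠ (1, 1, 1, 1)}

theorem c2 : cyclotomic 2 ℤ = X + 1 := cyclotomic_two ℤ

theorem c3 : cyclotomic 3 ℤ = X ^ 2 + X + 1 := cyclotomic_three ℤ

theorem c7 : cyclotomic 7 ℤ = X ^ 6 + X ^ 5 + X ^ 4 + X ^ 3 + X ^ 2 + X + 1 := by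
  have : Fact (Nat.Prime 7) := ⟨by norm_num⟩
  rw [cyclotomic_prime]
  simp only [Finset.sum_range_succ, Finset.sum_range_zero]
  ring

theorem mulstep (n p : ℕ) (hp : p.Prime) (hpn : ¬ p ∣ n) (P Q : ℤ[X]) (hP : cyclotomic n ℤ = P)
    (h : expand ℤ p P = Q * P) : cyclotomic (n * p) ℤ = Q := by
  have h1 := cyclotomic_expand_eq_cyclotomic_mul hp hpn ℤ
  rw [hP, h] at h1
  have h2 : P ≠ 0 := by rw [← hP]; exact cyclotomic_ne_zero n ℤ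
  exact (mul_right_cancel₀ h2 h1).symm

theorem c6 : cyclotomic 6 ℤ = X ^ 2 - X + 1 := by
  refine mulstep 3 2 (by norm_num) (by norm_num) _ _ c3 ?_
  simp only [map_add, map_pow, map_one, expand_X]
  ring

theorem c14 : cyclotomic 14 ℤ = X ^ 6 - X ^ 5 + X ^ 4 - X ^ 3 + X ^ 2 - X + 1 := by
  refine mulstep 7 2 (by norm_num) (by norm_num) _ _ c7 ?_
  simp only [map_add, map_sub, map_pow, map_one, expand_X]
  ring

theorem c21 : cyclotomic 21 ℤ = X ^ 12 - X ^ 11 + X ^ 9 - X ^ 8 + X ^ 6 - X ^ 4 + X ^ 3 - X + 1 := by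
  refine mulstep 7 3 (by norm_num) (by norm_num) _ _ c7 ?_
  simp only [map_add, map_sub, map_pow, map_one, expand_X]
  ring

theorem c42 : cyclotomic 42 ℤ = X ^ 12 + X ^ 11 - X ^ 9 - X ^ 8 + X ^ 6 - X ^ 4 - X ^ 3 + X + 1 := by
  refine mulstep 21 2 (by norm_num) (by norm_num) _ _ c21 ?_
  simp only [map_add, map_sub, map_pow, map_one, expand_X]
  ring

theorem NN_add {p q : ℤ[X]} (hp : ∀ n, 0 ≤ p.coeff n) (hq : ∀ n, 0 ≤ q.coeff n) :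
    ∀ n, 0 ≤ (p + q).coeff n := by
  intro n
  rw [coeff_add]
  exact add_nonneg (hp n) (hq n)

theorem NN_pow (k : ℕ) : ∀ n, 0 ≤ (X ^ k : ℤ[X]).coeff n := by
  intro n
  rw [coeff_X_pow]
  split_ifs <;> norm_num

theorem NN_X : ∀ n, 0 ≤ (X : ℤ[X]).coeff n := by
  intro n
  rw [coeff_X]
  split_ifs <;> norm_num

theorem NN_two (k : ℕ) : ∀ n, 0 ≤ (2 * X ^ k : ℤ[X]).coeff n := by
  rw [two_mul]
  exact NN_add (NN_pow k) (NN_pow k)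

theorem NN_three (k : ℕ) : ∀ n, 0 ≤ (3 * X ^ k : ℤ[X]).coeff n := by
  have h : (3 * X ^ k : ℤ[X]) = X ^ k + 2 * X ^ k := by ring
  rw [h]
  exact NN_add (NN_pow k) (NN_two k)

theorem A_eq : A 2 3 7 (2, 2, 1, 1) = X ^ 47 + X ^ 45 + X ^ 43 + 2 * X ^ 40 + 2 * X ^ 38 + 2 * X ^ 36 + 2 * X ^ 33 + 2 * X ^ 31 + 2 * X ^ 29 + 2 * X ^ 26 + 2 * X ^ 24 + 2 * X ^ 22 + 2 * X ^ 19 + 2 * X ^ 17 + 2 * X ^ 15 + 2 * X ^ 12 + 2 * X ^ 10 + 2 * X ^ 8 + X ^ 5 + X ^ 3 + X := by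
  simp only [A, M]
  norm_num only
  rw [c2, c3, c6, c14, c21, c42]
  ring

theorem B_eq : B 2 3 7 (bar (2, 2, 1, 1)) = X ^ 37 + 2 * X ^ 36 + 2 * X ^ 35 + 2 * X ^ 34 + 2 * X ^ 33 + 2 * X ^ 32 + 3 * X ^ 31 + 2 * X ^ 30 + X ^ 25 + 2 * X ^ 22 + 2 * X ^ 21 + 2 * X ^ 20 + 3 * X ^ 19 + 2 * X ^ 18 + 2 * X ^ 17 + 2 * X ^ 16 + X ^ 13 + 2 * X ^ 8 + 3 * X ^ 7 + 2 * X ^ 6 + 2 * X ^ 5 + 2 * X ^ 4 + 2 * X ^ 3 + 2 * X ^ 2 + X := by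
  simp only [B, M, bar]
  norm_num only
  rw [c7, c21, c42]
  ring

theorem A_nonneg : ∀ n, 0 ≤ (A 2 3 7 (2, 2, 1, 1)).coeff n := by
  rw [A_eq]
  repeat' first
    | with_reducible exact NN_X
    | with_reducible exact NN_pow _
    | with_reducible exact NN_two _
    | with_reducible exact NN_three _
    | with_reducible refine NN_add ?_ ?_

theorem B_nonneg : ∀ n, 0 ≤ (B 2 3 7 (bar (2, 2, 1, 1))).coeff n := by
  rw [B_eq]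
  repeat' first
    | with_reducible exact NN_X
    | with_reducible exact NN_pow _
    | with_reducible exact NN_two _
    | with_reducible exact NN_three _
    | with_reducible refine NN_add ?_ ?_

/-- There are distinct primes `p`, `q`, `r` and a tuple `t ∈ S` for which `A_t` and `B_{t̄}` both have
nonnegative coefficients (namely `(p, q, r) = (2, 3, 7)` and `t = (2, 2, 1, 1)`). -/
theorem result : ∃ (p q r : ℕ) (t : ℕ × ℕ × ℕ × ℕ), p.Prime ∧ q.Prime ∧ r.Prime ∧ p ≠ q ∧ p ≠ r ∧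
    q ≠ r ∧ t ∈ S ∧ (∀ n, 0 ≤ (A p q r t).coeff n) ∧ (∀ n, 0 ≤ (B p q r (bar t)).coeff n) := by
  refine ⟨2, 3, 7, (2, 2, 1, 1), by norm_num, by norm_num, by norm_num, by norm_num, by norm_num,
    by norm_num, ?_, A_nonneg, B_nonneg⟩
  refine ⟨by norm_num, by norm_num, ?_, by decide⟩
  rintro (h | h | h | h | ⟨b, c, _, _, _, h⟩) <;> simp [Prod.ext_iff] at h

end Pool.Agent.Results.MP_eda2d2_co.Pair42
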